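import Pool.Agent.MCG51.Final
import Pool.Agent.MCG51b.Cent

/-!
Commuting families of Dehn twists in actions of finite index subgroups of mapping class groups on the line and on the
circle.
-/

set_option autoImplicit false

open Set

namespace Pool.Agent.Results.MP_51d2ad_gt.DisjointTwistGroups

open Pool.Agent.MCG51 Pool.Agent.MCG51b

/-- The inner automorphisms of `P`. -/
def Inn (P : Type*) [Group P] : Subgroup (MulAut P) := (MulAut.conj : P →* MulAut P).range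

instance (P : Type*) [Group P] : (Inn P).Normal where
  conj_mem := by
    rintro _ ⟨w, rfl⟩ S
    refine ⟨S w, ?_⟩
    apply MulEquiv.ext
    intro y
    change S w * y * (S w)⁻¹ = S (w * S⁻¹ y * w⁻¹)
    have h : S (S⁻¹ y) = y := S.apply_symm_apply y
    rw [map_mul, map_mul, map_inv, h]

/-- The outer automorphism group. -/
abbrev Out (P : Type*) [Group P] : Type _ := MulAut P ⧸ Inn P

/-- `T` is conjugate to the twist about a separating curve that cuts off `h` handles, `2 ≤ h ≤ g - 2`, or, if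
`g ≥ 5`, to the twist about a nonseparating curve. -/
def IsTwist (g : ℕ) (T : MulAut (SG g)) : Prop :=
  ∃ S : MulAut (SG g), (∃ h, 2 ≤ h ∧ h + 2 ≤ g ∧ SepTwist g h (S * T * S⁻¹)) ∨
    (5 ≤ g ∧ NonsepTwist g (S * T * S⁻¹))

/-- `f` lifts along `p` to an increasing homeomorphism of the line; for the line (`p = id`) and the circle this means
that `f` preserves the orientation. -/
def Up {X : Type*} [TopologicalSpace X] (p : ℝ → X) (f : X ≃ₜ X) : Prop := ∃ h : ℝ ≃o ℝ, ∀ x, p (h x) = f (p x)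

section defs

variable {X : Type*} [TopologicalSpace X] {G : Type*} [Group G] {Γ : Subgroup G} (ρ : Γ →* (X ≃ₜ X))

/-- The periodic points of `t`: those that `ρ (t ^ m)` fixes for some positive `m` with `t ^ m` in `Γ`. -/
def Per (t : G) : Set X := {x | ∃ (m : ℕ) (hm : t ^ m ∈ Γ), 1 ≤ m ∧ ρ ⟨t ^ m, hm⟩ x = x}

/-- The common periodic points of the elements of `E`. -/
def CPer (E : Set G) : Set X := {x | ∀ t ∈ E, x ∈ Per ρ t}

/-- Each element of `E` has a positive power in `Γ` that maps `S` onto itself. -/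
def Inv (E : Set G) (S : Set X) : Prop :=
  ∀ t ∈ E, ∃ (m : ℕ) (hm : t ^ m ∈ Γ), 1 ≤ m ∧ ρ ⟨t ^ m, hm⟩ '' S = S

/-- The elements of `G` that commute with all elements of `E`. -/
def Cen (E : Set G) : Set G := {u | ∀ t ∈ E, t * u = u * t}

/-- The points that are periodic for every `u` in `Cen E` for which the periodic points form a large set, and that are
fixed by the commutators of the orientation preserving elements of `Γ` in `Cen E`. -/
def Fixed (p : ℝ → X) (L : Set X → Prop) (E : Set G) : Set X :=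
  {x | (∀ u ∈ Cen E, L (Per ρ u) → x ∈ Per ρ u) ∧
    ∀ γ δ : Γ, γ.1 ∈ Cen E → δ.1 ∈ Cen E → Up p (ρ γ) → Up p (ρ δ) → ρ (γ * δ * γ⁻¹ * δ⁻¹) x = x}

/-- The alternative for the sets `T i` and the kind `L` of large sets: every large closed set that is invariant under
all `T i` contains a large set of common periodic points of all `T i`; or there is an exception `j`: the common
periodic points of `T j` do not form a large set, and every large closed set that is invariant under `T j` contains a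
large set of points of `Fixed` for `T j` that are common periodic points of all other `T i`. -/
def Alt (p : ℝ → X) (L : Set X → Prop) {r : ℕ} (T : Fin r → Set G) : Prop :=
  (∀ S : Set X, IsClosed S → L S → (∀ i, Inv ρ (T i) S) → L (S ∩ {x | ∀ i, x ∈ CPer ρ (T i)})) ∨
  ∃ j, ¬ L (CPer ρ (T j)) ∧ ∀ S : Set X, IsClosed S → L S → Inv ρ (T j) S →
    L (S ∩ {x | x ∈ Fixed ρ p L (T j) ∧ ∀ i, i ≠ j → x ∈ CPer ρ (T i)})

end defs

/-- The alternatives for all finite index subgroups of `G` and all their actions on the line or on the circle. -/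
structure Alternatives {G : Type*} [Group G] {r : ℕ} (T : Fin r → Set G) : Prop where
  circle : ∀ (Γ : Subgroup G), Γ.FiniteIndex → ∀ ρ : Γ →* (AddCircle (1 : ℝ) ≃ₜ AddCircle (1 : ℝ)),
    Alt ρ (fun x : ℝ => (x : AddCircle (1 : ℝ))) Set.Nonempty T
  line : (∀ i, (T i).Finite) → ∀ (Γ : Subgroup G), Γ.FiniteIndex → ∀ ρ : Γ →* (ℝ ≃ₜ ℝ),
    Alt ρ id Set.Nonempty T ∧ Alt ρ id (fun S => ¬ BddAbove S) T ∧ Alt ρ id (fun S => ¬ BddBelow S) T

/-- Elements of different sets of the family commute. -/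
def Commuting {G : Type*} [Group G] {r : ℕ} (T : Fin r → Set G) : Prop :=
  ∀ i j, i ≠ j → ∀ t ∈ T i, ∀ u ∈ T j, t * u = u * t

/-- The images in the outer automorphism group. -/
def outImage {P : Type*} [Group P] {r : ℕ} (T : Fin r → Set (MulAut P)) (i : Fin r) : Set (Out P) :=
  (fun t : MulAut P => (t : Out P)) '' T i

/-- The alternatives hold in the automorphism group if the sets commute there, and in the outer automorphism group if
their images commute there. -/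
def ForAutAndOut {P : Type*} [Group P] {r : ℕ} (T : Fin r → Set (MulAut P)) : Prop :=
  (Commuting T → Alternatives T) ∧ (Commuting (outImage T) → Alternatives (outImage T))

section general

variable {X : Type*} [TopologicalSpace X] {G : Type*} [Group G] {Γ : Subgroup G} {ρ : Γ →* (X ≃ₜ X)}

theorem pow_fix {γ : Γ} {x : X} (h : ρ γ x = x) (k : ℕ) : ρ (γ ^ k) x = x := by
  induction k with
  | zero =>
    rw [pow_zero, map_one]
    rfl
  | succ k ih =>
    rw [pow_succ, map_mul]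
    change ρ (γ ^ k) (ρ γ x) = x
    rw [h, ih]

theorem pow_image {γ : Γ} {S : Set X} (h : ρ γ '' S = S) (k : ℕ) : ρ (γ ^ k) '' S = S := by
  induction k with
  | zero =>
    rw [pow_zero, map_one]
    exact image_id S
  | succ k ih =>
    rw [pow_succ, map_mul]
    have h1 : (⇑(ρ (γ ^ k) * ρ γ) : X → X) = (ρ (γ ^ k)) ∘ (ρ γ) := rfl
    rw [h1, image_comp, h, ih]

theorem per_comm {u : G} {γ : Γ} (hγ : γ.1 * u = u * γ.1) {x : X} (hx : x ∈ Per ρ u) : ρ γ x ∈ Per ρ u := by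
  obtain ⟨m, hm, h1, h2⟩ := hx
  refine ⟨m, hm, h1, ?_⟩
  have h3 : (⟨u ^ m, hm⟩ : Γ) * γ = γ * ⟨u ^ m, hm⟩ := by
    apply Subtype.ext
    change u ^ m * γ.1 = γ.1 * u ^ m
    exact ((Commute.pow_right (show Commute γ.1 u from hγ) m).eq).symm
  have h4 := congrArg ρ h3
  rw [map_mul, map_mul] at h4
  have h5 : ρ ⟨u ^ m, hm⟩ (ρ γ x) = ρ γ (ρ ⟨u ^ m, hm⟩ x) := DFunLike.congr_fun h4 x
  rw [h5, h2]

theorem image_eq {γ : Γ} {W : Set X} (h1 : ∀ x ∈ W, ρ γ x ∈ W) (h2 : ∀ x ∈ W, ρ γ⁻¹ x ∈ W) : ρ γ '' W = W := by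
  apply Subset.antisymm
  · rintro _ ⟨x, hx, rfl⟩
    exact h1 x hx
  · intro x hx
    refine ⟨ρ γ⁻¹ x, h2 x hx, ?_⟩
    rw [map_inv]
    exact (ρ γ).apply_symm_apply x

theorem rho_comm {t u : G} (h : t * u = u * t) {γ δ : Γ} (hγ : ∃ m : ℕ, γ.1 = t ^ m) (hδ : ∃ m : ℕ, δ.1 = u ^ m) :
    ρ γ * ρ δ = ρ δ * ρ γ := by
  obtain ⟨m, hm⟩ := hγ
  obtain ⟨k, hk⟩ := hδ
  rw [← map_mul, ← map_mul]
  congr 1
  apply Subtype.ext
  change γ.1 * δ.1 = δ.1 * γ.1
  rw [hm, hk]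
  exact (Commute.pow_pow (show Commute t u from h) m k).eq

/-- What is needed of the space `X`. -/
structure Good (P : Subgroup (X ≃ₜ X)) (p : ℝ → X) (L : Set X → Prop) : Prop where
  sq : ∀ f : X ≃ₜ X, f * f ∈ P
  per : ∀ f ∈ P, (∃ x, f x = x) → ∀ k : ℕ, 1 ≤ k → ∀ x, (f ^ k) x = x → f x = x
  up : ∀ f : X ≃ₜ X, Up p f → f ∈ P
  ne : ∀ S, L S → S.Nonempty
  mono : ∀ S S' : Set X, L S → S ⊆ S' → L S'

theorem pick {P : Subgroup (X ≃ₜ X)} {p : ℝ → X} {L : Set X → Prop} (hP : Good P p L) {t : G}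
    (ht : (Per ρ t).Nonempty) {S : Set X} (hS : ∃ (m : ℕ) (hm : t ^ m ∈ Γ), 1 ≤ m ∧ ρ ⟨t ^ m, hm⟩ '' S = S) :
    ∃ γ : Γ, (∃ m : ℕ, γ.1 = t ^ m) ∧ ρ γ ∈ P ∧ {x | ρ γ x = x} = Per ρ t ∧ ρ γ '' S = S := by
  obtain ⟨x0, n, hn, hn1, hx0⟩ := ht
  obtain ⟨m, hm, hm1, hmS⟩ := hS
  have e : ∀ (j : ℕ) (hj : t ^ j ∈ Γ) (i : ℕ), (⟨t ^ n, hn⟩ : Γ) ^ (i * j) = ⟨t ^ j, hj⟩ ^ (i * n) := by
    intro j hj i
    apply Subtype.ext
    change (t ^ n) ^ (i * j) = (t ^ j) ^ (i * n)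
    rw [← pow_mul, ← pow_mul]
    congr 1
    ring
  have hγP : ρ (⟨t ^ n, hn⟩ ^ (2 * m)) ∈ P := by
    rw [mul_comm, pow_mul, pow_two, map_mul]
    exact hP.sq _
  have hval : ((⟨t ^ n, hn⟩ : Γ) ^ (2 * m)).1 = t ^ (n * (2 * m)) := by
    change (t ^ n) ^ (2 * m) = t ^ (n * (2 * m))
    rw [← pow_mul]
  refine ⟨⟨t ^ n, hn⟩ ^ (2 * m), ⟨n * (2 * m), hval⟩, hγP, ?_, ?_⟩
  · apply Subset.antisymm
    · intro x hx
      have hmem : t ^ (n * (2 * m)) ∈ Γ := by
        rw [← hval]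
        exact ((⟨t ^ n, hn⟩ : Γ) ^ (2 * m)).2
      refine ⟨n * (2 * m), hmem, Nat.mul_pos hn1 (Nat.mul_pos (by norm_num) hm1), ?_⟩
      have h1 : (⟨t ^ (n * (2 * m)), hmem⟩ : Γ) = ⟨t ^ n, hn⟩ ^ (2 * m) := Subtype.ext hval.symm
      rw [h1]
      exact hx
    · rintro x ⟨j, hj, hj1, hx⟩
      refine hP.per _ hγP ⟨x0, pow_fix hx0 _⟩ j hj1 x ?_
      rw [← map_pow, ← pow_mul]
      rw [e j hj (2 * m)]
      exact pow_fix hx _
  · rw [e m hm 2]
    exact pow_image hmS _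

theorem pick' {P : Subgroup (X ≃ₜ X)} {p : ℝ → X} {L : Set X → Prop} (hP : Good P p L) {t : G}
    (ht : (Per ρ t).Nonempty) : ∃ γ : Γ, (∃ m : ℕ, γ.1 = t ^ m) ∧ ρ γ ∈ P ∧ {x | ρ γ x = x} = Per ρ t := by
  obtain ⟨x0, n, hn, hn1, hx0⟩ := ht
  obtain ⟨γ, h1, h2, h3, -⟩ := pick hP (ρ := ρ) ⟨x0, n, hn, hn1, hx0⟩ (S := univ)
    ⟨n, hn, hn1, image_univ_of_surjective (ρ ⟨t ^ n, hn⟩).surjective⟩
  exact ⟨γ, h1, h2, h3⟩

theorem alt_of [T2Space X] {r : ℕ} {P : Subgroup (X ≃ₜ X)} {p : ℝ → X} {L : Set X → Prop} (hP : Good P p L)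
    {T : Fin r → Set G} (hT : ∀ i, ∀ t ∈ T i, L (Per ρ t)) (hc : ∀ i j, i ≠ j → ∀ t ∈ T i, ∀ u ∈ T j, t * u = u * t)
    (H1 : ∀ SA : Set (X ≃ₜ X), (∀ s ∈ SA, s ∈ P) → ∀ S : Set X, IsClosed S → (∀ s ∈ SA, s '' S = S) → L S →
      L {x | ∀ s ∈ SA, s x = x} → L (S ∩ {x | ∀ s ∈ SA, s x = x}))
    (H2 : ∀ (j : Fin r) (φ : G → (X ≃ₜ X)) (SA SB : Set (X ≃ₜ X)), SA = φ '' T j → (∀ s ∈ SA, s ∈ P) →
      (∀ s ∈ SB, s ∈ P) → (∀ s ∈ SA, L {x | s x = x}) → (∀ s ∈ SB, L {x | s x = x}) →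
      (∀ a ∈ SA, ∀ b ∈ SB, a * b = b * a) → ¬ L {x | ∀ s ∈ SA, s x = x} →
      ∀ S : Set X, IsClosed S → (∀ s ∈ SA, s '' S = S) → L S → L (S ∩ {x | ∀ s ∈ SB, s x = x}))
    (H3 : ∀ (j : Fin r) (φ : G → (X ≃ₜ X)) (SA : Set (X ≃ₜ X)), SA = φ '' T j → (∀ s ∈ SA, s ∈ P) →
      (∀ s ∈ SA, L {x | s x = x}) → ¬ L {x | ∀ s ∈ SA, s x = x} → ∀ c ∈ P, ∀ d ∈ P, (∀ a ∈ SA, a * c = c * a) →
      (∀ a ∈ SA, a * d = d * a) → L {x | (c * d * c⁻¹ * d⁻¹) x = x}) :
    Alt ρ p L T := by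
  have hclosed : ∀ i, ∀ t ∈ T i, IsClosed (Per ρ t) := by
    intro i t ht
    obtain ⟨γ, -, -, h⟩ := pick' hP (hP.ne _ (hT i t ht))
    rw [← h]
    exact isClosed_eq (ρ γ).continuous continuous_id
  -- the homeomorphisms of a family that preserve a given set
  have hfam : ∀ (j : Fin r) (S : Set X), Inv ρ (T j) S → ∃ γ : G → Γ, ∀ t ∈ T j,
      (∃ m : ℕ, (γ t).1 = t ^ m) ∧ ρ (γ t) ∈ P ∧ {x | ρ (γ t) x = x} = Per ρ t ∧ ρ (γ t) '' S = S := by
    intro j S hS
    have h : ∀ t ∈ T j, ∃ γ : Γ, (∃ m : ℕ, γ.1 = t ^ m) ∧ ρ γ ∈ P ∧ {x | ρ γ x = x} = Per ρ t ∧ ρ γ '' S = S :=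
      fun t ht => pick hP (hP.ne _ (hT j t ht)) (hS t ht)
    choose! γ hγ using h
    exact ⟨γ, hγ⟩
  have hfix : ∀ (j : Fin r) (γ : G → Γ), (∀ t ∈ T j, {x | ρ (γ t) x = x} = Per ρ t) →
      {x : X | ∀ s ∈ (fun t => ρ (γ t)) '' T j, s x = x} = CPer ρ (T j) := by
    intro j γ h
    ext x
    constructor
    · intro hx t ht
      rw [← h t ht]
      exact hx _ ⟨t, ht, rfl⟩
    · rintro hx _ ⟨t, ht, rfl⟩
      have h1 : x ∈ {x | ρ (γ t) x = x} := by
        rw [h t ht]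
        exact hx t ht
      exact h1
  by_cases hcase : ∃ j, ¬ L (CPer ρ (T j))
  · right
    obtain ⟨j, hj⟩ := hcase
    refine ⟨j, hj, ?_⟩
    intro S hS hLS hinv
    obtain ⟨γ, hγ⟩ := hfam j S hinv
    have h1 := hfix j γ (fun t ht => (hγ t ht).2.2.1)
    set SA : Set (X ≃ₜ X) := (fun t => ρ (γ t)) '' T j with hSA
    have hSAP : ∀ s ∈ SA, s ∈ P := by
      rintro _ ⟨t, ht, rfl⟩
      exact (hγ t ht).2.1
    have hSAL : ∀ s ∈ SA, L {x | s x = x} := by
      rintro _ ⟨t, ht, rfl⟩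
      change L {x | ρ (γ t) x = x}
      rw [(hγ t ht).2.2.1]
      exact hT j t ht
    have hSAn : ¬ L {x | ∀ s ∈ SA, s x = x} := by
      rw [h1]
      exact hj
    -- elements that commute with the family
    have hcom : ∀ δ : Γ, (∃ u ∈ Cen (T j), ∃ m : ℕ, δ.1 = u ^ m) → ∀ a ∈ SA, a * ρ δ = ρ δ * a := by
      rintro δ ⟨u, hu, hδ⟩ _ ⟨t, ht, rfl⟩
      exact rho_comm (hu t ht) (hγ t ht).1 hδ
    set SB : Set (X ≃ₜ X) := {f | f ∈ P ∧ L {x | f x = x} ∧ ∀ a ∈ SA, a * f = f * a} with hSB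
    have h2 := H2 j (fun t => ρ (γ t)) SA SB rfl hSAP (fun s hs => hs.1) hSAL (fun s hs => hs.2.1)
      (fun a ha b hb => hb.2.2 a ha) hSAn S hS
      (by
        rintro _ ⟨t, ht, rfl⟩
        exact (hγ t ht).2.2.2) hLS
    refine hP.mono _ _ h2 ?_
    rintro x ⟨hxS, hx⟩
    have h3 : ∀ u ∈ Cen (T j), L (Per ρ u) → x ∈ Per ρ u := by
      intro u hu hLu
      obtain ⟨δ, hδ1, hδ2, hδ3⟩ := pick' hP (hP.ne _ hLu)
      rw [← hδ3]
      refine hx (ρ δ) ⟨hδ2, ?_, hcom δ ⟨u, hu, hδ1⟩⟩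
      rw [hδ3]
      exact hLu
    refine ⟨hxS, ⟨h3, ?_⟩, fun i hij u hu => h3 u (fun t ht => hc j i hij.symm t ht u hu) (hT i u hu)⟩
    intro γ' δ hγ' hδ h4 h5
    have h6 := hP.up _ h4
    have h7 := hP.up _ h5
    have h8 := hcom γ' ⟨γ'.1, hγ', 1, (pow_one _).symm⟩
    have h9 := hcom δ ⟨δ.1, hδ, 1, (pow_one _).symm⟩
    have h10 := H3 j (fun t => ρ (γ t)) SA rfl hSAP hSAL hSAn _ h6 _ h7 h8 h9
    rw [map_mul, map_mul, map_mul, map_inv, map_inv]
    refine hx _ ⟨P.mul_mem (P.mul_mem (P.mul_mem h6 h7) (P.inv_mem h6)) (P.inv_mem h7), h10, ?_⟩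
    intro a ha
    have h11 : Commute a (ρ γ') := h8 a ha
    have h12 : Commute a (ρ δ) := h9 a ha
    exact (((h11.mul_right h12).mul_right h11.inv_right).mul_right h12.inv_right).eq
  · left
    push Not at hcase
    intro S hS hLS hinv
    have key : ∀ s : Finset (Fin r), L (S ∩ {x | ∀ i ∈ s, x ∈ CPer ρ (T i)}) := by
      intro s
      induction s using Finset.induction_on with
      | empty =>
        have h1 : S ∩ {x : X | ∀ i ∈ (∅ : Finset (Fin r)), x ∈ CPer ρ (T i)} = S := by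
          apply Subset.antisymm inter_subset_left
          intro x hx
          exact ⟨hx, fun i hi => absurd hi (Finset.notMem_empty i)⟩
        rw [h1]
        exact hLS
      | insert j s hjs ih =>
        obtain ⟨γ, hγ⟩ := hfam j S (hinv j)
        have h1 := hfix j γ (fun t ht => (hγ t ht).2.2.1)
        have hcl : IsClosed {x : X | ∀ i ∈ s, x ∈ CPer ρ (T i)} := by
          have h2 : {x : X | ∀ i ∈ s, x ∈ CPer ρ (T i)} = ⋂ i ∈ s, ⋂ t ∈ T i, Per ρ t := by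
            ext x
            constructor
            · intro hx
              refine mem_iInter₂.mpr fun i hi => mem_iInter₂.mpr fun t ht => hx i hi t ht
            · intro hx i hi t ht
              exact mem_iInter₂.mp (mem_iInter₂.mp hx i hi) t ht
          rw [h2]
          exact isClosed_biInter fun i _ => isClosed_biInter fun t ht => hclosed i t ht
        have h3 := H1 ((fun t => ρ (γ t)) '' T j)
          (by
            rintro _ ⟨t, ht, rfl⟩
            exact (hγ t ht).2.1) (S ∩ {x | ∀ i ∈ s, x ∈ CPer ρ (T i)}) (hS.inter hcl)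
          (by
            rintro _ ⟨t, ht, rfl⟩
            have h4 : ∀ δ : Γ, (∀ i ∈ s, ∀ u ∈ T i, δ.1 * u = u * δ.1) →
                ∀ x ∈ {x : X | ∀ i ∈ s, x ∈ CPer ρ (T i)}, ρ δ x ∈ {x : X | ∀ i ∈ s, x ∈ CPer ρ (T i)} := by
              intro δ hδ x hx i hi u hu
              exact per_comm (hδ i hi u hu) (hx i hi u hu)
            have h5 : ∀ i ∈ s, ∀ u ∈ T i, Commute (γ t).1 u := by
              intro i hi u hu
              obtain ⟨m, hm⟩ := (hγ t ht).1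
              rw [hm]
              have hij : j ≠ i := by
                rintro rfl
                exact hjs hi
              exact Commute.pow_left (show Commute t u from hc j i hij t ht u hu) m
            have h6 : ρ (γ t) '' {x : X | ∀ i ∈ s, x ∈ CPer ρ (T i)} = {x : X | ∀ i ∈ s, x ∈ CPer ρ (T i)} := by
              apply image_eq
              · exact h4 (γ t) (fun i hi u hu => (h5 i hi u hu).eq)
              · exact h4 (γ t)⁻¹ (fun i hi u hu => ((h5 i hi u hu).inv_left).eq)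
            change ρ (γ t) '' _ = _
            rw [image_inter (ρ (γ t)).injective, (hγ t ht).2.2.2, h6])
          ih (by
            rw [h1]
            exact hcase j)
        rw [h1] at h3
        have h7 : S ∩ {x : X | ∀ i ∈ insert j s, x ∈ CPer ρ (T i)} =
            S ∩ {x | ∀ i ∈ s, x ∈ CPer ρ (T i)} ∩ CPer ρ (T j) := by
          ext x
          constructor
          · rintro ⟨h8, h9⟩
            exact ⟨⟨h8, fun i hi => h9 i (Finset.mem_insert_of_mem hi)⟩, h9 j (Finset.mem_insert_self j s)⟩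
          · rintro ⟨⟨h8, h9⟩, h10⟩
            refine ⟨h8, fun i hi => ?_⟩
            rcases Finset.mem_insert.mp hi with rfl | hi
            · exact h10
            · exact h9 i hi
        rw [h7]
        exact h3
    have h1 := key Finset.univ
    have h2 : {x : X | ∀ i ∈ (Finset.univ : Finset (Fin r)), x ∈ CPer ρ (T i)} = {x | ∀ i, x ∈ CPer ρ (T i)} := by
      ext x
      constructor
      · intro hx i
        exact hx i (Finset.mem_univ i)
      · intro hx i _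
        exact hx i
    rw [h2] at h1
    exact h1

end general

/-! ### The line and the circle -/

theorem good_line {L : Set ℝ → Prop} (h1 : ∀ S, L S → S.Nonempty) (h2 : ∀ S S' : Set ℝ, L S → S ⊆ S' → L S') :
    Good sgn.ker (id : ℝ → ℝ) L where
  sq f := by
    rw [mem_ker_sgn]
    rcases mono_or_anti f with h | h
    · exact h.comp h
    · exact h.comp h
  per f hf _ k hk x hx := (fixed_of_pow (mem_ker_sgn.mp hf) k hk x).mp hx
  up f hf := by
    obtain ⟨h, hh⟩ := hf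
    rw [mem_ker_sgn]
    intro x y hxy
    have h3 : ∀ x, h x = f x := hh
    rw [← h3, ← h3]
    exact h.strictMono hxy
  ne := h1
  mono := h2

theorem good_circle : Good csgn.ker (fun x : ℝ => (x : S1)) Set.Nonempty where
  sq f := by
    rw [MonoidHom.mem_ker, map_mul, Int.units_mul_self]
  per f hf hfix k hk x hx := circ_fixed_of_pow hf hfix k hk x hx
  up f hf := mem_csgn hf
  ne _ h := h
  mono _ _ h h' := h.mono h'

theorem per_line {G : Type*} [Group G] {G₁ G₂ : Subgroup G} {t : G} (hT : TwoSides G₁ G₂ t) {Γ : Subgroup G}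
    (hΓ : Γ.FiniteIndex) (ρ : Γ →* (ℝ ≃ₜ ℝ)) : ¬ BddAbove (Per ρ t) ∧ ¬ BddBelow (Per ρ t) := by
  obtain ⟨m, hm, hm1, -, hub⟩ := line_final hT Γ (Subgroup.FiniteIndex.index_ne_zero (H := Γ.subgroupOf G₁))
    (Subgroup.FiniteIndex.index_ne_zero (H := Γ.subgroupOf G₂)) ρ
  rw [not_bddAbove_iff, not_bddBelow_iff]
  constructor
  · intro M
    obtain ⟨x, hx, hx'⟩ := (hub M).1
    exact ⟨x, ⟨m, hm, hm1, hx'⟩, hx⟩
  · intro M
    obtain ⟨x, hx, hx'⟩ := (hub M).2
    exact ⟨x, ⟨m, hm, hm1, hx'⟩, hx⟩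

theorem per_circle {G : Type*} [Group G] {G₁ G₂ : Subgroup G} {t : G} (hT : TwoSides G₁ G₂ t) {Γ : Subgroup G}
    (hΓ : Γ.FiniteIndex) (ρ : Γ →* (S1 ≃ₜ S1)) : (Per ρ t).Nonempty := by
  obtain ⟨m, hm, hm1, hgood⟩ := circ_final hT Γ (Subgroup.FiniteIndex.index_ne_zero (H := Γ.subgroupOf G₁))
    (Subgroup.FiniteIndex.index_ne_zero (H := Γ.subgroupOf G₂)) ρ
  rcases hgood.boundary with h | h
  · exact ⟨0, m, hm, hm1, by rw [h]; rfl⟩
  · by_contra hcon
    have h2 : {x | ρ ⟨t ^ m, hm⟩ x = x} = ∅ := by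
      rw [eq_empty_iff_forall_notMem]
      intro x hx
      exact hcon ⟨x, m, hm, hm1, hx⟩
    rw [h2, frontier_empty] at h
    exact h finite_empty

theorem alternatives_of {G : Type*} [Group G] {r : ℕ} {T : Fin r → Set G}
    (hT : ∀ i, ∀ t ∈ T i, ∃ G₁ G₂ : Subgroup G, TwoSides G₁ G₂ t)
    (hc : ∀ i j, i ≠ j → ∀ t ∈ T i, ∀ u ∈ T j, t * u = u * t) : Alternatives T where
  circle := by
    intro Γ hΓ ρ
    refine alt_of good_circle ?_ hc ?_ ?_ ?_
    · intro i t ht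
      obtain ⟨G₁, G₂, h⟩ := hT i t ht
      exact per_circle h hΓ ρ
    · intro SA hSA S hS hinv hne hfix
      exact circ_one hSA hS hinv hne hfix
    · intro j φ SA SB _ hSA hSB hSA' hSB' hcomm hno S hS hinv hne
      exact circ_two hcomm (fun s hs => ⟨hSA s hs, hSA' s hs⟩) (fun s hs => ⟨hSB s hs, hSB' s hs⟩) hno hS hne hinv
    · intro j φ SA _ hSA hSA' hno c hc d hd hcc hdd
      exact circ_comm (fun s hs => ⟨hSA s hs, hSA' s hs⟩) hc hd hcc hdd hno
  line := by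
    intro hfin Γ hΓ ρ
    have hN : ∀ i, ∀ t ∈ T i, ¬ BddAbove (Per ρ t) ∧ ¬ BddBelow (Per ρ t) := by
      intro i t ht
      obtain ⟨G₁, G₂, h⟩ := hT i t ht
      exact per_line h hΓ ρ
    have hf : ∀ (j : Fin r) (φ : G → (ℝ ≃ₜ ℝ)) (SA : Set (ℝ ≃ₜ ℝ)), SA = φ '' T j → SA.Finite := by
      intro j φ SA he
      rw [he]
      exact (hfin j).image φ
    have hm : ∀ {SA : Set (ℝ ≃ₜ ℝ)}, (∀ s ∈ SA, s ∈ sgn.ker) → ∀ s ∈ SA, StrictMono s :=
      fun h s hs => mem_ker_sgn.mp (h s hs)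
    refine ⟨alt_of (good_line (fun S h => h) (fun S S' h h' => h.mono h')) ?_ hc ?_ ?_ ?_,
      alt_of (good_line ?_ (fun S S' h h' h'' => h (h''.mono h'))) (fun i t ht => (hN i t ht).1) hc ?_ ?_ ?_,
      alt_of (good_line ?_ (fun S S' h h' h'' => h (h''.mono h'))) (fun i t ht => (hN i t ht).2) hc ?_ ?_ ?_⟩
    · intro i t ht
      have h1 := (hN i t ht).1
      rw [not_bddAbove_iff] at h1
      obtain ⟨x, hx, -⟩ := h1 0
      exact ⟨x, hx⟩
    · intro SA hSA S hS hinv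
      exact (line_one (hm hSA) hS hinv).1
    · intro j φ SA SB he hSA hSB hSA' hSB' hcomm hno S hS hinv hne
      rcases line_alt (SA := SA) (SB := SB) (hf j φ SA he) hcomm
        (fun s hs => ⟨hm hSA s hs, hSA' s hs⟩) (fun s hs => ⟨hm hSB s hs, hSB' s hs⟩) with h | h
      · obtain ⟨x, hx⟩ := h
        exact absurd ⟨x, hx⟩ hno
      · obtain ⟨x, hx, hx'⟩ := h S hS hne hinv
        exact ⟨x, hx, hx'⟩
    · intro j φ SA he hSA hSA' hno c hc d hd hcc hdd
      exact (line_comm (hf j φ SA he) (hm hSA) (mem_ker_sgn.mp hc) (mem_ker_sgn.mp hd) hcc hdd).1 hSA' hno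
    · intro S hS
      rw [not_bddAbove_iff] at hS
      obtain ⟨x, hx, -⟩ := hS 0
      exact ⟨x, hx⟩
    · intro SA hSA S hS hinv
      exact (line_one (hm hSA) hS hinv).2.1
    · intro j φ SA SB he hSA hSB hSA' hSB' hcomm hno S hS hinv hne
      exact (line_two (hf j φ SA he) (hm hSA) (hm hSB) hcomm hS hinv).1 hSA' hSB' (not_not.mp hno) hne
    · intro j φ SA he hSA hSA' hno c hc d hd hcc hdd
      exact (line_comm (hf j φ SA he) (hm hSA) (mem_ker_sgn.mp hc) (mem_ker_sgn.mp hd) hcc hdd).2.1 hSA'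
        (not_not.mp hno)
    · intro S hS
      rw [not_bddBelow_iff] at hS
      obtain ⟨x, hx, -⟩ := hS 0
      exact ⟨x, hx⟩
    · intro SA hSA S hS hinv
      exact (line_one (hm hSA) hS hinv).2.2
    · intro j φ SA SB he hSA hSB hSA' hSB' hcomm hno S hS hinv hne
      exact (line_two (hf j φ SA he) (hm hSA) (hm hSB) hcomm hS hinv).2 hSA' hSB' (not_not.mp hno) hne
    · intro j φ SA he hSA hSA' hno c hc d hd hcc hdd
      exact (line_comm (hf j φ SA he) (hm hSA) (mem_ker_sgn.mp hc) (mem_ker_sgn.mp hd) hcc hdd).2.2 hSA'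
        (not_not.mp hno)

theorem twist_sides {g : ℕ} {T : MulAut (SG g)} (hT : IsTwist g T) {G : Type*} [Group G]
    (q : MulAut (SG g) →* G) : ∃ G₁ G₂ : Subgroup G, TwoSides G₁ G₂ (q T) := by
  obtain ⟨S, hS⟩ := hT
  have e : (q.comp (MulAut.conj S⁻¹).toMonoidHom) (S * T * S⁻¹) = q T := by
    rw [MonoidHom.comp_apply]
    congr 1
    change S⁻¹ * (S * T * S⁻¹) * S⁻¹⁻¹ = T
    group
  rw [← e]
  rcases hS with ⟨h, h2, hh, hT⟩ | ⟨hg, hT⟩
  · exact sep_sides h2 hh hT _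
  · exact nonsep_sides hg hT _

/-- **Commuting families of Dehn twists in actions on one-manifolds.** -/
theorem result : ∀ (g r : ℕ) (T : Fin r → Set (MulAut (SG g))), (∀ i, ∀ t ∈ T i, IsTwist g t) → ForAutAndOut T := by
  intro g r T hT
  refine ⟨fun hc => alternatives_of (fun i t ht => twist_sides (hT i t ht) (MonoidHom.id _)) hc,
    fun hc => alternatives_of ?_ hc⟩
  rintro i _ ⟨t, ht, rfl⟩
  exact twist_sides (hT i t ht) (QuotientGroup.mk' (Inn (SG g)))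

end Pool.Agent.Results.MP_51d2ad_gt.DisjointTwistGroups
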