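import Pool.Agent.MCG51.Final

/-!
Dehn twists in actions of finite index subgroups of mapping class groups on the line and on the circle.
-/

set_option autoImplicit false

namespace Pool.Agent.Results.MP_51d2ad_gt.TwistsManyFixedArcs

open Pool.Agent.MCG51

/-- The inner automorphisms of `P`. -/
def Inn (P : Type*) [Group P] : Subgroup (MulAut P) := (MulAut.conj : P →* MulAut P).range

instance (P : Type*) [Group P] : (Inn P).Normal where
  conj_mem := by
    rintro _ ⟨w, rfl⟩ S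
    refine ⟨S w, ?_⟩
    apply MulEquiv.ext
    intro y
    change S w * y * (S w)⁻¹ = S (w * S⁻¹ y * w⁻¹)
    have h : S (S⁻¹ y) = y := S.apply_symm_apply y
    rw [map_mul, map_mul, map_inv, h]

/-- The outer automorphism group. -/
abbrev Out (P : Type*) [Group P] : Type _ := MulAut P ⧸ Inn P

/-- `T` is conjugate to the twist about a separating curve that cuts off `h` handles, `2 ≤ h ≤ g - 2`, or, if
`g ≥ 5`, to the twist about a nonseparating curve. -/
def IsTwist (g : ℕ) (T : MulAut (SG g)) : Prop :=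
  ∃ S : MulAut (SG g), (∃ h, 2 ≤ h ∧ h + 2 ≤ g ∧ SepTwist g h (S * T * S⁻¹)) ∨
    (5 ≤ g ∧ NonsepTwist g (S * T * S⁻¹))

/-- In every action of a finite index subgroup of `G` on the line or on the circle some positive power of `t` is as
described in `Good`; on the line its fixed points are unbounded in both directions. -/
structure Rigid {G : Type*} [Group G] (t : G) : Prop where
  line : ∀ (Γ : Subgroup G), Γ.FiniteIndex → ∀ ρ : Γ →* (ℝ ≃ₜ ℝ),
    ∃ (m : ℕ) (hm : t ^ m ∈ Γ), 1 ≤ m ∧ Good t Γ ρ m hm ∧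
      ∀ M : ℝ, (∃ x > M, ρ ⟨t ^ m, hm⟩ x = x) ∧ ∃ x < M, ρ ⟨t ^ m, hm⟩ x = x
  circle : ∀ (Γ : Subgroup G), Γ.FiniteIndex → ∀ ρ : Γ →* (AddCircle (1 : ℝ) ≃ₜ AddCircle (1 : ℝ)),
    ∃ (m : ℕ) (hm : t ^ m ∈ Γ), 1 ≤ m ∧ Good t Γ ρ m hm

theorem rigid_of {G : Type*} [Group G] {G₁ G₂ : Subgroup G} {t : G} (hT : TwoSides G₁ G₂ t) : Rigid t where
  line := by
    intro Γ hΓ ρ
    exact line_final hT Γ (Subgroup.FiniteIndex.index_ne_zero (H := Γ.subgroupOf G₁))
      (Subgroup.FiniteIndex.index_ne_zero (H := Γ.subgroupOf G₂)) ρ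
  circle := by
    intro Γ hΓ ρ
    exact circ_final hT Γ (Subgroup.FiniteIndex.index_ne_zero (H := Γ.subgroupOf G₁))
      (Subgroup.FiniteIndex.index_ne_zero (H := Γ.subgroupOf G₂)) ρ

theorem twist_sides {g : ℕ} {T : MulAut (SG g)} (hT : IsTwist g T) {G : Type*} [Group G]
    (q : MulAut (SG g) →* G) : ∃ G₁ G₂ : Subgroup G, TwoSides G₁ G₂ (q T) := by
  obtain ⟨S, hS⟩ := hT
  have e : (q.comp (MulAut.conj S⁻¹).toMonoidHom) (S * T * S⁻¹) = q T := by
    rw [MonoidHom.comp_apply]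
    congr 1
    change S⁻¹ * (S * T * S⁻¹) * S⁻¹⁻¹ = T
    group
  rw [← e]
  rcases hS with ⟨h, h2, hh, hT⟩ | ⟨hg, hT⟩
  · exact sep_sides h2 hh hT _
  · exact nonsep_sides hg hT _

/-- **Dehn twists in actions on one-manifolds.** -/
theorem result :
    (∀ g h : ℕ, 2 ≤ h → h + 2 ≤ g → ∃ T : MulAut (SG g), SepTwist g h T) ∧
    (∀ g : ℕ, 5 ≤ g → ∃ T : MulAut (SG g), NonsepTwist g T) ∧
    ∀ (g : ℕ) (T : MulAut (SG g)), IsTwist g T →
      Rigid T ∧ Rigid (T : Out (SG g)) ∧ ∀ m : ℕ, 1 ≤ m → (T : Out (SG g)) ^ m ≠ 1 := by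
  refine ⟨fun g h _ hh => ⟨_, sepTwist_in hh⟩, fun g hg => ⟨_, nonsep_r hg⟩, fun g T hT => ⟨?_, ?_, ?_⟩⟩
  · obtain ⟨G₁, G₂, h⟩ := twist_sides hT (MonoidHom.id (MulAut (SG g)))
    exact rigid_of h
  · obtain ⟨G₁, G₂, h⟩ := twist_sides hT (QuotientGroup.mk' (Inn (SG g)))
    exact rigid_of h
  · intro m hm h1
    rw [← QuotientGroup.mk_pow, QuotientGroup.eq_one_iff] at h1
    obtain ⟨S, hS⟩ := hT
    have h2 : (S * T * S⁻¹) ^ m ∈ Inn (SG g) := by
      rw [conj_pow]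
      exact Subgroup.Normal.conj_mem inferInstance _ h1 S
    rcases hS with ⟨h, h3, hh, hT⟩ | ⟨hg, hT⟩
    · exact sep_not_inner (by omega) (by omega) hT hm h2
    · exact nonsep_not_inner (by omega) hT hm h2

end Pool.Agent.Results.MP_51d2ad_gt.TwistsManyFixedArcs
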